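import Mathlib
import Pool.Agent.R202.MM.Main

set_option autoImplicit false
set_option linter.unusedSectionVars false

/-!
# MP_7561b1_an, Q2 (positive answer)

The generic extension of a multiply mixing automorphism is multiply mixing.
-/

open MeasureTheory Set Filter Topology
open scoped ENNReal symmDiff

namespace Pool.Agent.Results.MP_7561b1_an.MultipleMixingLifts

/-- Invertible bimeasurable `m`-preserving maps of `Z` onto itself (representatives of the elements
of `Aut(Z, m)`). -/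
def PreAut {Z : Type*} [MeasurableSpace Z] (m : Measure Z) : Type _ :=
  {S : Z ≃ᵐ Z // MeasurePreserving S m m}

/-- `S` is mixing of order `k`: for all measurable `A_0, ..., A_k` the measure of
`A_0 ∩ S^{-n_1} A_1 ∩ ... ∩ S^{-n_k} A_k` tends to `m(A_0) ... m(A_k)` as `n_1 → ∞` and
`n_{i+1} - n_i → ∞` for all `i` (here `n_0 = 0`): for every `ε > 0` there is `N` such that the
difference is less than `ε` as soon as all the gaps `n_1 - n_0, ..., n_k - n_{k-1}` are at least `N`. -/
def MixingOfOrder {Z : Type*} [MeasurableSpace Z] (m : Measure Z) (S : Z → Z) (k : ℕ) : Prop :=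
  ∀ A : Fin (k + 1) → Set Z, (∀ i, MeasurableSet (A i)) → ∀ ε : ℝ, 0 < ε → ∃ N : ℕ,
    ∀ n : Fin (k + 1) → ℕ, n 0 = 0 → (∀ i : Fin k, n i.castSucc + N ≤ n i.succ) →
      |m.real (⋂ i, S^[n i] ⁻¹' A i) - ∏ i, m.real (A i)| < ε

/-- `S` is multiply mixing (mixing of all orders). -/
def MultiplyMixing {Z : Type*} [MeasurableSpace Z] (m : Measure Z) (S : Z → Z) : Prop :=
  ∀ k : ℕ, 2 ≤ k → MixingOfOrder m S k

/-- Measurable cocycles `α : X → Aut(Y, ν)` (representatives): jointly measurable families of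
automorphisms of `(Y, ν)`. -/
def PreCocycle (X : Type*) {Y : Type*} [MeasurableSpace X] [MeasurableSpace Y] (ν : Measure Y) : Type _ :=
  {α : X → PreAut ν // Measurable (fun z : X × Y => (α z.1).1 z.2)}

section
variable {X Y : Type*} [MeasurableSpace X] [MeasurableSpace Y]

/-- Equality of cocycles modulo null sets. -/
def cocEq (μ : Measure X) (ν : Measure Y) : Setoid (PreCocycle X ν) where
  r := fun α β => ∀ᵐ x ∂μ, ∀ᵐ y ∂ν, (α.1 x).1 y = (β.1 x).1 y
  iseqv :=
    { refl := fun α => Eventually.of_forall fun x => Eventually.of_forall fun y => rfl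
      symm := fun {α β} h => h.mono fun x hx => hx.mono fun y hy => hy.symm
      trans := fun {α β γ} h h' => by
        filter_upwards [h, h'] with x h1 h2
        filter_upwards [h1, h2] with y h3 h4
        exact h3.trans h4 }

/-- The space of cocycles modulo null sets. -/
def Cocycle (μ : Measure X) (ν : Measure Y) : Type _ := Quotient (cocEq μ ν)

/-- The class of a representative. -/
def cls (μ : Measure X) {ν : Measure Y} (α : PreCocycle X ν) : Cocycle μ ν := Quotient.mk (cocEq μ ν) α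

/-- The classes of the cocycles `β` with `μ {x : ν (α(x)B Δ β(x)B) ≥ ε} < ε`. -/
def nbd (μ : Measure X) {ν : Measure Y} (α : PreCocycle X ν) (B : Set Y) (ε : ℝ) : Set (Cocycle μ ν) :=
  {q | ∃ β : PreCocycle X ν, cls μ β = q ∧
    μ.real {x | ε ≤ ν.real (((α.1 x).1 '' B) ∆ ((β.1 x).1 '' B))} < ε}

/-- Convergence in measure of cocycles, `Aut(Y, ν)` carrying the weak topology. -/
instance inMeasure (μ : Measure X) (ν : Measure Y) : TopologicalSpace (Cocycle μ ν) :=
  TopologicalSpace.generateFrom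
    {U | ∃ (α : PreCocycle X ν) (B : Set Y) (ε : ℝ), MeasurableSet B ∧ 0 < ε ∧ U = nbd μ α B ε}

/-- The extension `T_α(x, y) = (Tx, α(x)y)`. -/
def ext {μ : Measure X} {ν : Measure Y} (T : PreAut μ) (α : PreCocycle X ν) (z : X × Y) : X × Y :=
  (T.1 z.1, (α.1 z.1).1 z.2)

end

/-! ### proof -/

open Pool.Agent.W744.NG Pool.Agent.W744.NG.Final

section
variable {X Y : Type} [MeasurableSpace X] [StandardBorelSpace X] [MeasurableSpace Y] [StandardBorelSpace Y]
  {μ : Measure X} {ν : Measure Y} [IsProbabilityMeasure μ] [IsProbabilityMeasure ν]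

theorem real_img (S S' : AU ν) (h : ∀ᵐ y ∂ν, S.1 y = S'.1 y) (A B : Set Y) :
    ν.real (A ∆ (S.1 '' B)) = ν.real (A ∆ (S'.1 '' B)) := by
  apply measureReal_congr
  exact (ae_eq_refl A).symmDiff (Pool.H359R3.MX.img_ae ν S.1 S'.1 S.2 h B)

theorem mem_nbd (α β : PreCocycle X ν) (B : Set Y) (ε : ℝ) :
    cls μ β ∈ nbd μ α B ε ↔ (β : Coc X ν) ∈ NB μ (α : Coc X ν) B ε := by
  constructor
  · rintro ⟨β', h1, h2⟩
    have h3 : ∀ᵐ x ∂μ, ∀ᵐ y ∂ν, (β'.1 x).1 y = (β.1 x).1 y := Quotient.exact h1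
    show μ.real {x | ε ≤ ν.real (((α.1 x).1 '' B) ∆ ((β.1 x).1 '' B))} < ε
    refine lt_of_le_of_lt (le_of_eq ?_) h2
    apply measureReal_congr
    filter_upwards [h3] with x hx
    apply propext
    have h4 := real_img (β'.1 x) (β.1 x) hx ((α.1 x).1 '' B) B
    show ε ≤ ν.real (((α.1 x).1 '' B) ∆ ((β.1 x).1 '' B)) ↔ ε ≤ ν.real (((α.1 x).1 '' B) ∆ ((β'.1 x).1 '' B))
    rw [← h4]
  · intro h
    exact ⟨β, rfl, h⟩

/-- the class map on the cocycles of the library -/
def clsC (μ : Measure X) (ν : Measure Y) (Φ : Coc X ν) : Cocycle μ ν := cls μ Φ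

theorem cls_surj : Function.Surjective (clsC μ ν) := Quotient.mk_surjective

theorem ind : @IsInducing (Coc X ν) (Cocycle μ ν) (tC μ ν) _ (clsC μ ν) := by
  refine @IsInducing.mk _ _ (tC μ ν) _ _ ?_
  show tC μ ν = TopologicalSpace.induced (clsC μ ν) (TopologicalSpace.generateFrom _)
  rw [induced_generateFrom_eq]
  refine congrArg TopologicalSpace.generateFrom ?_
  ext U
  constructor
  · rintro ⟨α, B, ε, hB, hε, rfl⟩
    refine ⟨nbd μ α B ε, ⟨α, B, ε, hB, hε, rfl⟩, ?_⟩
    ext β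
    exact mem_nbd α β B ε
  · rintro ⟨_, ⟨α, B, ε, hB, hε, rfl⟩, rfl⟩
    refine ⟨α, B, ε, hB, hε, ?_⟩
    ext β
    exact mem_nbd α β B ε

/-- the space of cocycles is a Baire space -/
theorem baire [NullSingletonClass μ] [NullSingletonClass ν] : BaireSpace (Cocycle μ ν) := by
  let _ : TopologicalSpace (Coc X ν) := tC μ ν
  have hB : BaireSpace (Coc X ν) := All.baire X Y μ ν
  have hind : IsInducing (clsC μ ν) := ind
  have hopen : IsOpenMap (clsC μ ν) := by
    intro U hU
    obtain ⟨V, hV, rfl⟩ := hind.isOpen_iff.1 hU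
    rw [image_preimage_eq V cls_surj]
    exact hV
  refine ⟨fun f hf hd => ?_⟩
  have h1 : Dense (⋂ n, clsC μ ν ⁻¹' f n) :=
    dense_iInter_of_isOpen (fun n => (hf n).preimage hind.continuous) fun n => (hd n).preimage hopen
  have h2 : Dense (clsC μ ν '' (⋂ n, clsC μ ν ⁻¹' f n)) :=
    cls_surj.denseRange.dense_image hind.continuous h1
  refine h2.mono ?_
  rintro _ ⟨x, hx, rfl⟩
  rw [mem_iInter] at hx ⊢
  exact hx

/-- mixing depends only on the class of the map -/
theorem mix_congr {Z : Type} [MeasurableSpace Z] {m : Measure Z} {S S' : Z → Z}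
    (hS : MeasurePreserving S m m) (h : ∀ᵐ z ∂m, S z = S' z) (k : ℕ) (h1 : MixingOfOrder m S k) :
    MixingOfOrder m S' k := by
  have h2 : ∀ n : ℕ, ∀ᵐ z ∂m, S^[n] z = S'^[n] z := by
    intro n
    induction n with
    | zero => exact Eventually.of_forall fun z => rfl
    | succ n ih =>
      have h3 := hS.quasiMeasurePreserving.ae ih
      filter_upwards [h3, h] with z hz1 hz2
      rw [Function.iterate_succ_apply, Function.iterate_succ_apply, hz1, hz2]
  intro A hA ε hε
  obtain ⟨N, hN⟩ := h1 A hA ε hε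
  refine ⟨N, fun n hn0 hn => ?_⟩
  have h3 := hN n hn0 hn
  have h4 : m.real (⋂ i, S'^[n i] ⁻¹' A i) = m.real (⋂ i, S^[n i] ⁻¹' A i) := by
    apply measureReal_congr
    have h5 : ∀ᵐ z ∂m, ∀ i, S^[n i] z = S'^[n i] z := ae_all_iff.2 fun i => h2 (n i)
    filter_upwards [h5] with z hz
    apply propext
    show z ∈ (⋂ i, S'^[n i] ⁻¹' A i) ↔ z ∈ (⋂ i, S^[n i] ⁻¹' A i)
    simp only [mem_iInter, mem_preimage, hz]
  rw [h4]
  exact h3

theorem ext_ae (T : PreAut μ) (α β : PreCocycle X ν) (h : cls μ α = cls μ β) :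
    ∀ᵐ z ∂(μ.prod ν), ext T α z = ext T β z := by
  have h3 : ∀ᵐ x ∂μ, ∀ᵐ y ∂ν, (α.1 x).1 y = (β.1 x).1 y := Quotient.exact h
  have h5 : MeasurableSet {z : X × Y | (α.1 z.1).1 z.2 = (β.1 z.1).1 z.2} := measurableSet_eq_fun α.2 β.2
  have h6 : ∀ᵐ z ∂(μ.prod ν), (α.1 z.1).1 z.2 = (β.1 z.1).1 z.2 := by
    rw [Measure.ae_prod_iff_ae_ae h5]
    exact h3
  filter_upwards [h6] with z hz
  exact Prod.ext rfl hz

theorem mem_res [NullSingletonClass μ] [NullSingletonClass ν] (T : PreAut μ) (k : ℕ) (hk1 : 1 ≤ k)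
    (hk : MixingOfOrder μ T.1 k) :
    {q : Cocycle μ ν | ∀ α : PreCocycle X ν, cls μ α = q → MixingOfOrder (μ.prod ν) (ext T α) k} ∈
      residual (Cocycle μ ν) := by
  let _ : TopologicalSpace (Coc X ν) := tC μ ν
  obtain ⟨DX⟩ := YSt.main X μ
  obtain ⟨DY⟩ := YSt.main Y ν
  rw [res_iff (clsC μ ν) ind cls_surj]
  refine Filter.mem_of_superset (Pool.Agent.R202.MM.generic DX DY T k hk1 hk) ?_
  intro Φ hΦ α hα
  exact mix_congr (sk_mp T Φ) (ext_ae T Φ α hα.symm) k hΦ

end

/-- **Theorem.** Let `(X, μ)` and `(Y, ν)` be nonatomic standard probability spaces and let `T` be an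
automorphism of `(X, μ)`. If `T` is multiply mixing, then there is a dense `G_δ` set of (classes of)
cocycles, in the space of cocycles modulo null sets with convergence in measure, such that every extension
`T_α` with `α` in this set is multiply mixing. Moreover, the same is true for mixing of order `k`, for each
single `k ≥ 1`. -/
theorem result {X Y : Type} [MeasurableSpace X] [StandardBorelSpace X] [MeasurableSpace Y]
    [StandardBorelSpace Y] (μ : Measure X) (ν : Measure Y) [IsProbabilityMeasure μ] [IsProbabilityMeasure ν]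
    [NullSingletonClass μ] [NullSingletonClass ν] (T : PreAut μ) :
    (MultiplyMixing μ T.1 → ∃ G : Set (Cocycle μ ν), IsGδ G ∧ Dense G ∧
      ∀ α : PreCocycle X ν, cls μ α ∈ G → MultiplyMixing (μ.prod ν) (ext T α)) ∧
    ∀ k : ℕ, 1 ≤ k → MixingOfOrder μ T.1 k → ∃ G : Set (Cocycle μ ν), IsGδ G ∧ Dense G ∧
      ∀ α : PreCocycle X ν, cls μ α ∈ G → MixingOfOrder (μ.prod ν) (ext T α) k := by
  have hB : BaireSpace (Cocycle μ ν) := baire
  constructor
  · intro hT
    have h1 : (⋂ k : ℕ, ⋂ _ : 2 ≤ k, {q : Cocycle μ ν | ∀ α : PreCocycle X ν, cls μ α = q →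
        MixingOfOrder (μ.prod ν) (ext T α) k}) ∈ residual (Cocycle μ ν) := by
      rw [countable_iInter_mem]
      intro k
      rw [countable_iInter_mem]
      intro hk
      exact mem_res T k (by omega) (hT k hk)
    obtain ⟨G, hG1, hG2, hG3⟩ := mem_residual.1 h1
    refine ⟨G, hG2, hG3, fun α hα k hk => ?_⟩
    have h2 := hG1 hα
    simp only [mem_iInter, mem_ofPred_eq] at h2
    exact h2 k hk α rfl
  · intro k hk1 hk
    obtain ⟨G, hG1, hG2, hG3⟩ := mem_residual.1 (mem_res (ν := ν) T k hk1 hk)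
    exact ⟨G, hG2, hG3, fun α hα => hG1 hα α rfl⟩

end Pool.Agent.Results.MP_7561b1_an.MultipleMixingLifts
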